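import Pool.Agent.Lib.MP_85e637_an.E09

/-!
# Codimension-one attractors of structurally stable diffeomorphisms are orientable in every
dimension `d ≥ 4`.
-/

open scoped Manifold ContDiff Topology Bundle
open Filter Set Module

namespace Pool.Agent.Results.MP_85e637_an.NoNonorientable

open Pool.MP85.Def

/-- For every closed smooth Riemannian manifold `M` modelled on `E` and every `C¹` diffeomorphism
`f` of `M` which satisfies Axiom A and is structurally stable in the `C¹` topology, every attractor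
`Λ` of `f` which is a basic set with `dim W^u(x) + 1 = d` for `x ∈ Λ` is orientable. -/
def AllOrientable (E : Type) [NormedAddCommGroup E] [NormedSpace ℝ E] (d : ℕ) : Prop :=
  ∀ (M : Type) [MetricSpace M] [CompactSpace M] [ChartedSpace E M] [IsManifold 𝓘(ℝ, E) ∞ M]
    [Bundle.RiemannianBundle (fun x : M => TangentSpace 𝓘(ℝ, E) x)]
    [IsContinuousRiemannianBundle E (fun x : M => TangentSpace 𝓘(ℝ, E) x)]
    (f : M ≃ₘ^1⟮𝓘(ℝ, E), 𝓘(ℝ, E)⟯ M), AxiomA f → StructStable f →
    ∀ Λ : Set M, IsBasicSet f Λ → IsAttractor f Λ →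
      (∀ x ∈ Λ, finrank ℝ (Es E f.symm x) + 1 = d) → Orientable f Λ

/-- Let `M` be a closed smooth manifold of dimension `d ≥ 4` and `f` a `C¹` diffeomorphism of `M`
which satisfies Axiom A and is structurally stable in the `C¹` topology. Then every attractor `Λ` of
`f` which is a basic set of codimension one (`dim W^u(x) = d - 1` for `x ∈ Λ`) is orientable. In
particular there is no codimension-one nonorientable expanding attractor. -/
theorem result (d : ℕ) (hd : 4 ≤ d) : AllOrientable (EuclideanSpace ℝ (Fin d)) d := by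
  intro M _ _ _ _ _ _ f hA hS Λ hΛ ha hc
  obtain ⟨⟨V, W, c, lam, h1, h2, h3⟩, h4⟩ := hA
  intro cu cs e0 e1 e2 hu hs
  exact Pool.MP85.main_thm_SS hd f ⟨⟨V, W, c, lam, h1, h2, h3⟩, h4⟩ hS
    ⟨hΛ.nonempty, hΛ.closed, hΛ.inv, hΛ.sub, hΛ.relOpen, hΛ.transitive⟩ ha hc cu cs e0 e1 e2
    (fun t => ⟨(hu t).1, (hu t).2.1, (hu t).2.2⟩)
    (fun t => ⟨by rw [e1]; exact (hs t).1, (hs t).2.1, (hs t).2.2⟩)

end Pool.Agent.Results.MP_85e637_an.NoNonorientable
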